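import Mathlib
import Pool.Agent.H104Z.Berg.Main

set_option autoImplicit false

/-! The nonstable K-theory functor from rings to conical commutative monoids has a right inverse
up to natural isomorphism. -/

namespace Pool.Agent.Results.MP_85b181_al.AFunctorialRealization

open CategoryTheory Pool.Agent.H104Z.Berg

universe u

theorem result : ∃ Ψ : ConMon.{u} ⥤ Rng.{u}, Nonempty (Ψ ⋙ VFun.{u} ≅ 𝟭 ConMon.{u}) :=
  Pool.Agent.H104Z.Berg.main

end Pool.Agent.Results.MP_85b181_al.AFunctorialRealization
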